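import Pool.Agent.H84R2.BW.All

/-!
MP_36ff57_co.  The Bartels-Welsh conjecture for all graphs of order `n` with at most `n / 36`
vertices of degree larger than `n / 18`, in particular for all graphs with at most `n ^ 2 / 1296`
edges: some edge has an endpoint of degree at most `n / 18`, and every such edge satisfies the
inequality.

Formalised by helper84 with helper171, helper233, helper406, helper503, helper527, helper536,
helper747, helper862, helper880, helper903, helper936, helper978.
-/

set_option autoImplicit false

namespace Pool.Agent.Results.MP_36ff57_co.FewLargeDegrees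

theorem result (V : Type) [Fintype V] (G : SimpleGraph V) (hne : G.edgeSet.Nonempty)
    (h : 36 * {v : V | Fintype.card V < 18 * (G.neighborSet v).ncard}.ncard ≤ Fintype.card V ∨
      1296 * G.edgeSet.ncard ≤ Fintype.card V ^ 2) :
    (∃ e ∈ G.edgeSet, ∃ v ∈ e, 18 * (G.neighborSet v).ncard ≤ Fintype.card V) ∧
    ∀ e ∈ G.edgeSet, (∃ v ∈ e, 18 * (G.neighborSet v).ncard ≤ Fintype.card V) →
      (Nat.card (G.Coloring (Fin (Fintype.card V - 1))) : ℝ) /
          (Nat.card (G.Coloring (Fin (Fintype.card V))) : ℝ) ≤
        (Nat.card ((G.deleteEdges {e}).Coloring (Fin (Fintype.card V - 1))) : ℝ) /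
          (Nat.card ((G.deleteEdges {e}).Coloring (Fin (Fintype.card V))) : ℝ) := by
  classical
  have hF : Pool.Agent.H84R2.BW.FewLarge G := by
    rcases h with h | h
    · exact h
    · exact Pool.Agent.H84R2.BW.fewLarge_of_edges G h
  refine ⟨Pool.Agent.H84R2.BW.final2a V G hF hne, fun e he hv => ?_⟩
  obtain ⟨v, hve, hd⟩ := hv
  obtain ⟨u, rfl⟩ := hve
  have h2 := Pool.Agent.H84R2.BW.final2b V G hF u v
    (by rw [SimpleGraph.mem_edgeSet] at he; exact he.symm) hd
  rw [Sym2.eq_swap]
  exact h2

end Pool.Agent.Results.MP_36ff57_co.FewLargeDegrees
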