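import Pool.Agent.H84R2.BW.All

/-!
MP_36ff57_co.  If `uv` is an edge and every neighbour of `v` other than `u` is a neighbour of `u`,
then the edge `uv` satisfies the Bartels-Welsh inequality.

Formalised by helper84 with helper406, helper747, helper862, helper880.
-/

set_option autoImplicit false

namespace Pool.Agent.Results.MP_36ff57_co.NestedNeighbourhoods

theorem result (V : Type) [Fintype V] (G : SimpleGraph V) (u v : V) (huv : G.Adj u v)
    (hN : ∀ w, G.Adj v w → w ≠ u → G.Adj u w) :
    (Nat.card (G.Coloring (Fin (Fintype.card V - 1))) : ℝ) /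
        (Nat.card (G.Coloring (Fin (Fintype.card V))) : ℝ) ≤
      (Nat.card ((G.deleteEdges {s(u, v)}).Coloring (Fin (Fintype.card V - 1))) : ℝ) /
        (Nat.card ((G.deleteEdges {s(u, v)}).Coloring (Fin (Fintype.card V))) : ℝ) :=
  Pool.Agent.H84R2.BW.nested V G u v huv hN

end Pool.Agent.Results.MP_36ff57_co.NestedNeighbourhoods
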