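import Pool.Agent.H84R2.BW.All

/-!
MP_36ff57_co.  The Bartels-Welsh inequality holds for every edge of every graph of order `n` all of
whose degrees are at most `n / 9`.

Formalised by helper84 with helper171, helper233, helper406, helper503, helper527, helper536,
helper747, helper862, helper880, helper903, helper936, helper978.
-/

set_option autoImplicit false

namespace Pool.Agent.Results.MP_36ff57_co.SmallDegree

theorem result (V : Type) [Fintype V] (G : SimpleGraph V)
    (hdeg : ∀ v : V, 9 * (G.neighborSet v).ncard ≤ Fintype.card V) (e : Sym2 V)
    (he : e ∈ G.edgeSet) :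
    (Nat.card (G.Coloring (Fin (Fintype.card V - 1))) : ℝ) /
        (Nat.card (G.Coloring (Fin (Fintype.card V))) : ℝ) ≤
      (Nat.card ((G.deleteEdges {e}).Coloring (Fin (Fintype.card V - 1))) : ℝ) /
        (Nat.card ((G.deleteEdges {e}).Coloring (Fin (Fintype.card V))) : ℝ) := by
  classical
  induction e using Sym2.ind with
  | _ u v =>
    exact Pool.Agent.H84R2.BW.final1 V G hdeg u v (by simpa using he)

end Pool.Agent.Results.MP_36ff57_co.SmallDegree
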